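import Pool.Agent.R477.DC.Weight

/-!
# A distributionally chaotic semigroup with a dense set of null orbits which is not
# `f`-distributionally chaotic

Real or complex scalars. There are a strongly continuous semigroup `T` of weighted translations on
`C_0 [0, ∞)` (so that the orbits of the compactly supported functions are eventually `0`) and a
strictly increasing function `f` with `f (t) ≥ t + 1` such that `T` is distributionally chaotic but
not `f`-distributionally chaotic.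

`(T t u) (s) = exp (L (s + t) - L s) u (s + t)` where `L` is the supremum of bumps of heights
`(n + 2) ^ 2` which are repeated with the period `z (n + 1)`, where `z` grows rapidly. So
`‖T (z n)‖ ≤ e`, hence `T (z n + r) u` tends to `0` for all `u`, uniformly for `0 ≤ r ≤ 1`, and we
take `f (t) = z ⌈t⌉ + 1 + t`.
-/

set_option autoImplicit false

open Filter Topology MeasureTheory
open scoped ENNReal ZeroAtInfty NNReal

namespace Pool.Agent.Results.MP_8cea72_an.LacunaryTimes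

/-- The lower `f`-density of `A ⊆ [0, ∞)`: the lower limit of the Lebesgue measure of
`A ∩ [0, f (t)]` divided by `t`. -/
noncomputable def lowerDensity (f : ℝ≥0 → ℝ) (A : Set ℝ≥0) : ℝ≥0∞ :=
  liminf (fun t : ℝ≥0 => volume (((fun a : ℝ≥0 => (a : ℝ)) '' A) ∩ Set.Icc 0 (f t)) / (t : ℝ≥0∞))
    atTop

/-- The (strictly) increasing functions `[0, ∞) → [1, ∞)` with positive lower limit of
`f (t) / t`. -/
def InF (f : ℝ≥0 → ℝ) : Prop :=
  StrictMono f ∧ (∀ t, 1 ≤ f t) ∧ ∃ c : ℝ, 0 < c ∧ ∀ᶠ t : ℝ≥0 in atTop, c ≤ f t / t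

/-- `T` is a strongly continuous semigroup of bounded operators. -/
def IsSemigroup {𝕜 : Type} [RCLike 𝕜] {X : Type} [NormedAddCommGroup X]
    [NormedSpace 𝕜 X] (T : ℝ≥0 → X →L[𝕜] X) : Prop :=
  T 0 = 1 ∧ (∀ s t, T (s + t) = (T s) * (T t)) ∧ ∀ x, Continuous fun t => T t x

/-- `T` is `f`-distributionally chaotic. -/
def DistributionallyChaotic {𝕜 : Type} [RCLike 𝕜] {X : Type} [NormedAddCommGroup X]
    [NormedSpace 𝕜 X] (f : ℝ≥0 → ℝ) (T : ℝ≥0 → X →L[𝕜] X) : Prop :=
  ∃ (S : Set X) (σ : ℝ), ¬ S.Countable ∧ 0 < σ ∧ ∀ ε : ℝ, 0 < ε → ∀ x ∈ S, ∀ y ∈ S, x ≠ y →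
    lowerDensity f {t : ℝ≥0 | dist (T t x) (T t y) < σ} = 0 ∧
    lowerDensity f {t : ℝ≥0 | ε ≤ dist (T t x) (T t y)} = 0

open Pool.Agent.R477.DC

section proof

variable {𝕜 : Type} [RCLike 𝕜]

/-- The element of `C_0 [0, ∞)` given by a continuous function tending to `0`. -/
def mk (f : ℝ≥0 → 𝕜) (hc : Continuous f) (h : Tendsto f atTop (𝓝 0)) : C₀(ℝ≥0, 𝕜) where
  toFun := f
  continuous_toFun := hc
  zero_at_infty' := by
    rw [cocompact_eq_atTop]
    exact h

lemma tendsto_apply (u : C₀(ℝ≥0, 𝕜)) : Tendsto (fun i => u i) atTop (𝓝 0) := by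
  have := u.zero_at_infty'
  rw [cocompact_eq_atTop] at this
  exact this

lemma norm_apply_le (u : C₀(ℝ≥0, 𝕜)) (i : ℝ≥0) : ‖u i‖ ≤ ‖u‖ := by
  rw [← ZeroAtInftyContinuousMap.norm_toBCF_eq_norm]
  exact u.toBCF.norm_coe_le_norm i

lemma norm_le_of_forall {u : C₀(ℝ≥0, 𝕜)} {C : ℝ} (hC : 0 ≤ C) (h : ∀ i, ‖u i‖ ≤ C) :
    ‖u‖ ≤ C := by
  rw [← ZeroAtInftyContinuousMap.norm_toBCF_eq_norm]
  exact (BoundedContinuousFunction.norm_le hC).2 h

/-- The weights. -/
noncomputable def w (s t : ℝ≥0) : ℝ := Real.exp (L (s + t) - L s)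

lemma w_pos (s t : ℝ≥0) : 0 < w s t := Real.exp_pos _

lemma w_le (s t : ℝ≥0) : w s t ≤ Real.exp t := by
  apply Real.exp_le_exp.2
  have := L_lip (u := (s : ℝ) + t) (v := (s : ℝ)) s.2
  rw [add_sub_cancel_left, abs_of_nonneg (NNReal.coe_nonneg t)] at this
  linarith

lemma w_mul (r s t : ℝ≥0) : w r s * w (r + s) t = w r (s + t) := by
  unfold w
  rw [← Real.exp_add]
  congr 1
  push_cast
  rw [add_assoc]
  ring

lemma L_cont : Continuous fun s : ℝ≥0 => L s :=
  L_continuousOn.comp_continuous NNReal.continuous_coe fun s => s.2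

lemma w_cont (t : ℝ≥0) : Continuous fun s => w s t := by
  unfold w
  have h1 : Continuous fun s : ℝ≥0 => L ((s : ℝ) + t) := by
    have := L_cont.comp (continuous_add_const t)
    simpa [Function.comp_def] using this
  exact Real.continuous_exp.comp (h1.sub L_cont)

lemma shift_tendsto (u : C₀(ℝ≥0, 𝕜)) (t : ℝ≥0) : Tendsto (fun s => u (s + t)) atTop (𝓝 0) :=
  (tendsto_apply u).comp (tendsto_atTop_mono (fun s => (le_self_add : s ≤ s + t)) tendsto_id)

/-- The weighted translation semigroup. -/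
noncomputable def T (𝕜 : Type) [RCLike 𝕜] (t : ℝ≥0) : C₀(ℝ≥0, 𝕜) →L[𝕜] C₀(ℝ≥0, 𝕜) :=
  LinearMap.mkContinuous
    { toFun := fun u => mk (fun s => ((w s t : ℝ) : 𝕜) * u (s + t))
        ((RCLike.continuous_ofReal.comp (w_cont t)).mul
          (u.continuous_toFun.comp (continuous_add_const t))) (by
        rw [tendsto_zero_iff_norm_tendsto_zero]
        have h1 : Tendsto (fun s => Real.exp t * ‖u (s + t)‖) atTop (𝓝 0) := by
          have := (tendsto_zero_iff_norm_tendsto_zero.1 (shift_tendsto u t)).const_mul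
            (Real.exp t)
          rwa [mul_zero] at this
        refine squeeze_zero (fun i => norm_nonneg _) (fun i => ?_) h1
        rw [norm_mul, RCLike.norm_ofReal, abs_of_pos (w_pos i t)]
        exact mul_le_mul_of_nonneg_right (w_le i t) (norm_nonneg _))
      map_add' := fun u v => by
        ext s
        show ((w s t : ℝ) : 𝕜) * (u (s + t) + v (s + t)) =
          ((w s t : ℝ) : 𝕜) * u (s + t) + ((w s t : ℝ) : 𝕜) * v (s + t)
        ring
      map_smul' := fun c u => by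
        ext s
        show ((w s t : ℝ) : 𝕜) * (c * u (s + t)) = c * (((w s t : ℝ) : 𝕜) * u (s + t))
        ring }
    (Real.exp t) (fun u => by
      apply norm_le_of_forall (by positivity)
      intro s
      show ‖((w s t : ℝ) : 𝕜) * u (s + t)‖ ≤ _
      rw [norm_mul, RCLike.norm_ofReal, abs_of_pos (w_pos s t)]
      exact mul_le_mul (w_le s t) (norm_apply_le u _) (norm_nonneg _) (Real.exp_pos _).le)

lemma T_apply (u : C₀(ℝ≥0, 𝕜)) (s t : ℝ≥0) : T 𝕜 t u s = ((w s t : ℝ) : 𝕜) * u (s + t) := rfl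

lemma norm_T_apply (u : C₀(ℝ≥0, 𝕜)) (s t : ℝ≥0) : ‖T 𝕜 t u s‖ = w s t * ‖u (s + t)‖ := by
  rw [T_apply, norm_mul, RCLike.norm_ofReal, abs_of_pos (w_pos s t)]

lemma T_zero : T 𝕜 0 = 1 := by
  ext u s
  rw [T_apply]
  simp [w]

lemma T_add (s t : ℝ≥0) : T 𝕜 (s + t) = T 𝕜 s * T 𝕜 t := by
  ext u r
  rw [mul_apply_eq_comp, T_apply, T_apply, T_apply, ← mul_assoc, ← RCLike.ofReal_mul, w_mul,
    add_assoc]

lemma w_diff (r s t : ℝ≥0) : |w r t - w r s| ≤ Real.exp s * (Real.exp |(t : ℝ) - s| - 1) := by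
  have h1 : w r t = w r s * Real.exp (L (r + t) - L (r + s)) := by
    unfold w
    rw [← Real.exp_add]
    congr 1
    ring
  have h2 : |L (r + t) - L (r + s)| ≤ |(t : ℝ) - s| := by
    have h3 := L_lip (u := (r : ℝ) + t) (v := (r : ℝ) + s) (by positivity)
    have h4 := L_lip (u := (r : ℝ) + s) (v := (r : ℝ) + t) (by positivity)
    rw [add_sub_add_left_eq_sub] at h3 h4
    rw [abs_sub_comm (s : ℝ) t] at h4
    rw [abs_le]
    constructor <;> linarith
  set d := L (r + t) - L (r + s) with hd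
  set e := |(t : ℝ) - s| with he
  have h3 : |Real.exp d - 1| ≤ Real.exp e - 1 := by
    rw [abs_le] at h2 ⊢
    constructor
    · have h5 : Real.exp (-e) ≤ Real.exp d := Real.exp_le_exp.2 h2.1
      have h6 : 2 ≤ Real.exp e + Real.exp (-e) := by
        have h7 : Real.exp e * Real.exp (-e) = 1 := by
          rw [← Real.exp_add, add_neg_cancel, Real.exp_zero]
        nlinarith [Real.exp_pos e, Real.exp_pos (-e), sq_nonneg (Real.exp e - Real.exp (-e))]
      linarith
    · have h5 : Real.exp d ≤ Real.exp e := Real.exp_le_exp.2 h2.2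
      linarith
  rw [h1, show w r s * Real.exp d - w r s = w r s * (Real.exp d - 1) by ring, abs_mul,
    abs_of_pos (w_pos r s)]
  exact mul_le_mul (w_le r s) h3 (abs_nonneg _) (Real.exp_pos _).le

lemma T_cont (u : C₀(ℝ≥0, 𝕜)) : Continuous fun t => T 𝕜 t u := by
  rw [Metric.continuous_iff]
  intro s ε hε
  have hu : UniformContinuous (u : ℝ≥0 → 𝕜) := ZeroAtInftyContinuousMap.uniformContinuous u
  rw [Metric.uniformContinuous_iff] at hu
  obtain ⟨δ₁, hδ₁, h1⟩ := hu (ε / (4 * Real.exp (s + 1))) (by positivity)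
  have h2 : Tendsto (fun r : ℝ => Real.exp s * (Real.exp |r| - 1) * ‖u‖) (𝓝 0) (𝓝 0) := by
    have : Continuous fun r : ℝ => Real.exp s * (Real.exp |r| - 1) * ‖u‖ := by fun_prop
    have h3 := this.tendsto 0
    simpa using h3
  rw [Metric.tendsto_nhds_nhds] at h2
  obtain ⟨δ₂, hδ₂, h2⟩ := h2 (ε / 4) (by positivity)
  refine ⟨min 1 (min δ₁ δ₂), by positivity, fun t ht => ?_⟩
  rw [lt_min_iff, lt_min_iff] at ht
  obtain ⟨ht0, ht1, ht2⟩ := ht
  rw [dist_eq_norm]
  refine lt_of_le_of_lt (norm_le_of_forall (C := ε / 2) (by positivity) fun r => ?_) (by linarith)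
  show ‖((w r t : ℝ) : 𝕜) * u (r + t) - ((w r s : ℝ) : 𝕜) * u (r + s)‖ ≤ ε / 2
  have e1 : ((w r t : ℝ) : 𝕜) * u (r + t) - ((w r s : ℝ) : 𝕜) * u (r + s) =
      ((w r t : ℝ) : 𝕜) * (u (r + t) - u (r + s)) + ((w r t - w r s : ℝ) : 𝕜) * u (r + s) := by
    rw [RCLike.ofReal_sub]; ring
  rw [e1]
  refine (norm_add_le _ _).trans ?_
  rw [norm_mul, norm_mul, RCLike.norm_ofReal, RCLike.norm_ofReal, abs_of_pos (w_pos r t)]
  have h3 : dist (r + t) (r + s) < δ₁ := by
    rw [NNReal.dist_eq] at ht1 ⊢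
    push_cast
    rwa [add_sub_add_left_eq_sub]
  have h4 := h1 h3
  rw [dist_eq_norm] at h4
  have h5 : w r t ≤ Real.exp (s + 1) := by
    refine (w_le r t).trans (Real.exp_le_exp.2 ?_)
    rw [NNReal.dist_eq, abs_lt] at ht0
    linarith
  have h6 := h2 (x := (t : ℝ) - s) (by rw [dist_zero_right, Real.norm_eq_abs]; exact ht2)
  rw [dist_zero_right, Real.norm_eq_abs] at h6
  have h7 := (le_abs_self _).trans h6.le
  have h8 := w_diff r s t
  have h9 : w r t * ‖u (r + t) - u (r + s)‖ ≤ ε / 4 := by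
    calc w r t * ‖u (r + t) - u (r + s)‖ ≤ Real.exp (s + 1) * (ε / (4 * Real.exp (s + 1))) :=
          mul_le_mul h5 h4.le (norm_nonneg _) (Real.exp_pos _).le
      _ = ε / 4 := by
        have := Real.exp_pos ((s : ℝ) + 1)
        field_simp
  have h10 : |w r t - w r s| * ‖u (r + s)‖ ≤ ε / 4 := by
    refine le_trans ?_ h7
    exact mul_le_mul h8 (norm_apply_le u _) (norm_nonneg _) ((abs_nonneg _).trans h8)
  linarith

/-- The functions which vanish eventually. -/
def X0 (𝕜 : Type) [RCLike 𝕜] : Submodule 𝕜 C₀(ℝ≥0, 𝕜) where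
  carrier := {u | ∃ N, ∀ i, N ≤ i → u i = 0}
  zero_mem' := ⟨0, fun i _ => rfl⟩
  add_mem' := by
    rintro u v ⟨M, hM⟩ ⟨N, hN⟩
    refine ⟨max M N, fun i hi => ?_⟩
    show u i + v i = 0
    rw [hM i (le_of_max_le_left hi), hN i (le_of_max_le_right hi), add_zero]
  smul_mem' := by
    rintro c u ⟨N, hN⟩
    refine ⟨N, fun i hi => ?_⟩
    show c * u i = 0
    rw [hN i hi, mul_zero]

lemma X0_dense : Dense (X0 𝕜 : Set C₀(ℝ≥0, 𝕜)) := by
  intro u
  rw [Metric.mem_closure_iff]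
  intro ε hε
  obtain ⟨N, hN⟩ := (Metric.tendsto_atTop.1 (tendsto_apply u)) (ε / 2) (by positivity)
  set c : ℝ≥0 → ℝ := fun i => max 0 (min 1 ((N : ℝ) + 1 - i)) with hc
  have hcc : Continuous c := by
    rw [hc]
    fun_prop
  have hc0 : ∀ i, N + 1 ≤ i → c i = 0 := by
    intro i hi
    have : (N : ℝ) + 1 ≤ i := by exact_mod_cast hi
    apply max_eq_left
    exact (min_le_right _ _).trans (by linarith)
  have hc1 : ∀ i, |c i - 1| ≤ 1 := by
    intro i
    have h1 : 0 ≤ c i := le_max_left _ _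
    have h2 : c i ≤ 1 := max_le zero_le_one (min_le_left _ _)
    rw [abs_le]
    constructor <;> linarith
  have hc2 : ∀ i, i ≤ N → c i = 1 := by
    intro i hi
    have : (i : ℝ) ≤ N := by exact_mod_cast hi
    simp only [hc]
    rw [min_eq_left (by linarith), max_eq_right zero_le_one]
  set v : C₀(ℝ≥0, 𝕜) := mk (fun i => ((c i : ℝ) : 𝕜) * u i)
    ((RCLike.continuous_ofReal.comp hcc).mul u.continuous_toFun) (by
    refine tendsto_const_nhds.congr' ?_
    filter_upwards [eventually_ge_atTop (N + 1)] with i hi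
    rw [hc0 i hi, RCLike.ofReal_zero, zero_mul]) with hv
  refine ⟨v, ⟨N + 1, fun i hi => ?_⟩, ?_⟩
  · show ((c i : ℝ) : 𝕜) * u i = 0
    rw [hc0 i hi, RCLike.ofReal_zero, zero_mul]
  rw [dist_comm, dist_eq_norm]
  refine lt_of_le_of_lt (norm_le_of_forall (C := ε / 2) (by positivity) fun i => ?_) (by linarith)
  show ‖((c i : ℝ) : 𝕜) * u i - u i‖ ≤ ε / 2
  have e1 : ((c i : ℝ) : 𝕜) * u i - u i = ((c i - 1 : ℝ) : 𝕜) * u i := by
    rw [RCLike.ofReal_sub, RCLike.ofReal_one]; ring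
  rw [e1, norm_mul, RCLike.norm_ofReal]
  rcases le_or_gt i N with h | h
  · rw [hc2 i h, sub_self, abs_zero, zero_mul]; positivity
  · have h1 := hN i h.le
    rw [dist_zero_right] at h1
    have h2 := hc1 i
    nlinarith [norm_nonneg (u i), abs_nonneg (c i - 1)]

lemma X0_null (u : C₀(ℝ≥0, 𝕜)) (hu : u ∈ X0 𝕜) : Tendsto (fun t => T 𝕜 t u) atTop (𝓝 0) := by
  obtain ⟨N, hN⟩ := hu
  refine tendsto_const_nhds.congr' ?_
  filter_upwards [eventually_ge_atTop N] with n hn
  ext i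
  rw [T_apply, hN (i + n) (hn.trans le_add_self), mul_zero]
  rfl

/-- The orbit of every vector tends to `0` along the times `z n + r`, `0 ≤ r ≤ 1`. -/
lemma z_null (u : C₀(ℝ≥0, 𝕜)) (σ : ℝ) (hσ : 0 < σ) : ∃ l : ℕ, ∀ n, l ≤ n → ∀ t : ℝ≥0,
    z n ≤ t → t ≤ z n + 1 → ‖T 𝕜 t u‖ < σ := by
  obtain ⟨N, hN⟩ := (Metric.tendsto_atTop.1 (tendsto_apply u)) (σ / (2 * Real.exp 2))
    (by positivity)
  obtain ⟨l, hl⟩ := exists_nat_ge N
  refine ⟨l, fun n hn t ht1 ht2 => ?_⟩
  refine lt_of_le_of_lt (norm_le_of_forall (C := σ / 2) (by positivity) fun i => ?_) (by linarith)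
  rw [norm_T_apply]
  have h1 := hN (i + t) (by
    have h2 : (n : ℝ≥0) ≤ z n := by exact_mod_cast (le_z n).le
    have h3 : (l : ℝ≥0) ≤ n := by exact_mod_cast hn
    exact ((hl.trans h3).trans (h2.trans ht1)).trans le_add_self)
  rw [dist_zero_right] at h1
  have h2 : w i t ≤ Real.exp 2 := by
    apply Real.exp_le_exp.2
    have ht1' : (z n : ℝ) ≤ t := by exact_mod_cast ht1
    have ht2' : (t : ℝ) ≤ z n + 1 := by exact_mod_cast ht2
    have h3 := L_period n (u := (i : ℝ)) i.2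
    have h4 := L_lip (u := (i : ℝ) + t) (v := (i : ℝ) + z n) (by positivity)
    have h5 : |(i : ℝ) + t - (i + z n)| ≤ 1 := by
      rw [abs_le]
      constructor <;> linarith
    linarith
  calc w i t * ‖u (i + t)‖ ≤ Real.exp 2 * (σ / (2 * Real.exp 2)) :=
        mul_le_mul h2 h1.le (norm_nonneg _) (Real.exp_pos _).le
    _ = σ / 2 := by
      have := Real.exp_pos 2
      field_simp

lemma xr_tendsto : Tendsto (fun i : ℝ≥0 => ((xr i : ℝ) : 𝕜)) atTop (𝓝 0) := by
  rw [tendsto_zero_iff_norm_tendsto_zero]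
  simp only [RCLike.norm_ofReal]
  rw [Metric.tendsto_atTop]
  intro ε hε
  obtain ⟨n, hn⟩ := exists_pow_lt_of_lt_one hε (show (1 / 2 : ℝ) < 1 by norm_num)
  refine ⟨K n + 1, fun i hi => ?_⟩
  have h1 := xr_small (n := n) (u := (i : ℝ)) (by exact_mod_cast hi)
  have h2 := xr_nonneg (i : ℝ)
  have h3 : (1 / 2 : ℝ) ^ (n + 1) ≤ (1 / 2 : ℝ) ^ n :=
    pow_le_pow_of_le_one (by norm_num) (by norm_num) (by omega)
  rw [Real.dist_eq, sub_zero, abs_abs, abs_of_nonneg h2]
  linarith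

/-- The distributionally irregular vector. -/
noncomputable def x (𝕜 : Type) [RCLike 𝕜] : C₀(ℝ≥0, 𝕜) :=
  mk (fun i => ((xr i : ℝ) : 𝕜))
    (RCLike.continuous_ofReal.comp (xr_continuous.comp NNReal.continuous_coe)) xr_tendsto

lemma norm_x_apply (i : ℝ≥0) : ‖x 𝕜 i‖ = xr i := by
  show ‖((xr i : ℝ) : 𝕜)‖ = _
  rw [RCLike.norm_ofReal, abs_of_nonneg (xr_nonneg _)]

lemma x_large {n : ℕ} {t : ℝ≥0} (h1 : (D n : ℝ≥0) ≤ t) (h2 : t ≤ K n) :
    (n : ℝ) + 1 ≤ ‖T 𝕜 t (x 𝕜)‖ := by
  have h3 := large (n := n) (t := (t : ℝ)) (by exact_mod_cast h1) (by exact_mod_cast h2)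
  refine (h3.trans (le_of_eq ?_)).trans (norm_apply_le _ ((K n : ℝ≥0) - t))
  have h4 : (K n : ℝ≥0) - t + t = K n := tsub_add_cancel_of_le h2
  rw [norm_T_apply, norm_x_apply, h4, w, mul_comm, ← NNReal.coe_add, h4, NNReal.coe_sub h2]
  rfl

lemma x_small {n : ℕ} {t : ℝ≥0} (h1 : (K n : ℝ) + 1 ≤ t) (h2 : (t : ℝ) ≤ (n + 1) * z (n + 1)) :
    ‖T 𝕜 t (x 𝕜)‖ ≤ Real.exp 2 * (1 / 2 : ℝ) ^ n := by
  apply norm_le_of_forall (by positivity)
  intro i
  rw [norm_T_apply, norm_x_apply, mul_comm]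
  exact small (n := n) (t := (t : ℝ)) (u := (i : ℝ)) i.2 h1 h2

end proof

section density

/-- A set with small measure in some long intervals has lower density `0`. -/
lemma density_zero (A : Set ℝ≥0) (h : ∀ δ : ℝ, 0 < δ → ∀ N : ℝ≥0, ∃ t B : ℝ≥0, N ≤ t ∧ 0 < t ∧
    (∀ j ∈ A, (j : ℝ) ≤ 1 + t → j ≤ B) ∧ (B : ℝ) ≤ δ * t) :
    lowerDensity (fun t => 1 + (t : ℝ)) A = 0 := by
  rw [← nonpos_iff_eq_zero]
  refine le_of_forall_gt_imp_ge_of_dense fun a ha => ?_
  obtain ⟨δ, hδ0, hδ⟩ : ∃ δ : ℝ, 0 < δ ∧ ENNReal.ofReal δ ≤ a := by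
    by_cases hat : a = ∞
    · exact ⟨1, one_pos, by rw [hat]; exact le_top⟩
    · exact ⟨a.toReal, ENNReal.toReal_pos ha.ne' hat, by rw [ENNReal.ofReal_toReal hat]⟩
  refine (liminf_le_of_frequently_le ?_).trans hδ
  rw [Filter.frequently_atTop]
  intro N
  obtain ⟨t, B, hn, hn0, hB, hBn⟩ := h δ hδ0 N
  refine ⟨t, hn, ?_⟩
  have h1 : ((fun a : ℝ≥0 => (a : ℝ)) '' A) ∩ Set.Icc 0 (1 + (t : ℝ)) ⊆ Set.Icc 0 (B : ℝ) := by
    rintro _ ⟨⟨j, hj, rfl⟩, h2, h3⟩
    exact ⟨h2, by exact_mod_cast hB j hj h3⟩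
  rw [ENNReal.div_le_iff (by exact_mod_cast hn0.ne') ENNReal.coe_ne_top]
  refine (measure_mono h1).trans ?_
  rw [Real.volume_Icc, sub_zero, ← ENNReal.ofReal_coe_nnreal (p := t),
    ← ENNReal.ofReal_mul hδ0.le]
  exact ENNReal.ofReal_le_ofReal hBn

/-- The function along which the semigroup is not chaotic. -/
noncomputable def f (t : ℝ≥0) : ℝ := z ⌈t⌉₊ + 1 + t

/-- A set containing `[z l, z l + 1]` for all large `l` has positive lower `f`-density. -/
lemma density_pos (A : Set ℝ≥0) (l : ℕ) (h : ∀ n, l ≤ n → ∀ t : ℝ≥0, z n ≤ t → t ≤ z n + 1 →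
    t ∈ A) : lowerDensity f A ≠ 0 := by
  have h1 : ENNReal.ofReal (1 / 2) ≤ lowerDensity f A := by
    apply le_liminf_of_le
    · isBoundedDefault
    · filter_upwards [eventually_ge_atTop (2 * l + 1 : ℝ≥0)] with t ht
      have ht0 : 0 < t := lt_of_lt_of_le (by positivity) ht
      rw [ENNReal.le_div_iff_mul_le (Or.inl (by exact_mod_cast ht0.ne'))
        (Or.inl ENNReal.coe_ne_top)]
      rw [← ENNReal.ofReal_coe_nnreal (p := t), ← ENNReal.ofReal_mul (by norm_num)]
      set n := ⌈t⌉₊ with hn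
      have htn : t ≤ n := Nat.le_ceil t
      have h2 : (⋃ i ∈ Finset.Icc l n, Set.Ico (z i : ℝ) (z i + 1)) ⊆
          ((fun a : ℝ≥0 => (a : ℝ)) '' A) ∩ Set.Icc 0 (f t) := by
        intro r hr
        simp only [Set.mem_iUnion, Finset.mem_Icc] at hr
        obtain ⟨i, ⟨hi1, hi2⟩, hr1, hr2⟩ := hr
        have hr0 : 0 ≤ r := (Nat.cast_nonneg _).trans hr1
        refine ⟨⟨r.toNNReal, h i hi1 _ ?_ ?_, Real.coe_toNNReal r hr0⟩, hr0, ?_⟩
        · rw [← NNReal.coe_le_coe, Real.coe_toNNReal r hr0]; exact hr1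
        · rw [← NNReal.coe_le_coe, Real.coe_toNNReal r hr0]; exact hr2.le
        · have h3 : (z i : ℝ) ≤ z n := by exact_mod_cast z_mono hi2
          have : f t = z n + 1 + t := rfl
          rw [this]
          have := t.2
          linarith
      refine le_trans ?_ (measure_mono h2)
      rw [measure_biUnion_finset]
      · simp only [Real.volume_Ico, add_sub_cancel_left, ENNReal.ofReal_one, Finset.sum_const,
          Nat.card_Icc, nsmul_eq_mul, mul_one]
        rw [← ENNReal.ofReal_natCast]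
        apply ENNReal.ofReal_le_ofReal
        have h3 : (2 * (l : ℝ) + 1) ≤ t := by exact_mod_cast ht
        have h4 : (t : ℝ) ≤ n := by exact_mod_cast htn
        have h5 : (((n + 1 - l : ℕ)) : ℝ) = (n : ℝ) + 1 - l := by
          rw [Nat.cast_sub]
          · push_cast; ring
          · have : (l : ℝ) ≤ n + 1 := by linarith [Nat.cast_nonneg (α := ℝ) l]
            exact_mod_cast this
        rw [h5]
        linarith
      · intro i _ j _ hij
        rw [Function.onFun, Set.disjoint_left]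
        rintro r ⟨h3, h4⟩ ⟨h5, h6⟩
        rcases lt_or_gt_of_ne hij with h7 | h7
        · have : (z i : ℝ) + 1 ≤ z j := by exact_mod_cast z_strictMono h7
          linarith
        · have : (z j : ℝ) + 1 ≤ z i := by exact_mod_cast z_strictMono h7
          linarith
      · intro i _
        exact measurableSet_Ico
  intro h2
  rw [h2] at h1
  have : (0 : ℝ≥0∞) < ENNReal.ofReal (1 / 2) := ENNReal.ofReal_pos.2 (by norm_num)
  exact absurd h1 (not_le.2 this)

end density

/-- Real or complex scalars. There are a Banach space `X`, a strongly continuous semigroup `T` on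
`X`, a dense linear subspace consisting of vectors whose orbits tend to `0`, and a (strictly)
increasing function `f : [0, ∞) → [1, ∞)` with positive lower limit of `f (t) / t`, such that `T` is
distributionally chaotic but not `f`-distributionally chaotic. -/
theorem result (𝕜 : Type) [RCLike 𝕜] :
    ∃ (X : Type) (_ : NormedAddCommGroup X) (_ : NormedSpace 𝕜 X) (_ : CompleteSpace X)
      (f : ℝ≥0 → ℝ) (T : ℝ≥0 → X →L[𝕜] X) (X₀ : Submodule 𝕜 X),
      InF f ∧ IsSemigroup T ∧ Dense (X₀ : Set X) ∧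
      (∀ x ∈ X₀, Tendsto (fun t => T t x) atTop (𝓝 0)) ∧
      DistributionallyChaotic (fun t => 1 + (t : ℝ)) T ∧ ¬ DistributionallyChaotic f T := by
  refine ⟨C₀(ℝ≥0, 𝕜), inferInstance, inferInstance, inferInstance, f, T 𝕜, X0 𝕜,
    ⟨fun a b h => ?_, fun t => ?_, 1, one_pos, ?_⟩, ⟨T_zero, T_add, T_cont⟩, X0_dense, X0_null,
    ?_, ?_⟩
  · have h1 : (z ⌈a⌉₊ : ℝ) ≤ z ⌈b⌉₊ := by exact_mod_cast z_mono (Nat.ceil_mono h.le)
    have h2 : (a : ℝ) < b := by exact_mod_cast h
    unfold f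
    linarith
  · unfold f
    have h1 := t.2
    have h2 : (0 : ℝ) ≤ z ⌈t⌉₊ := Nat.cast_nonneg _
    linarith
  · filter_upwards [eventually_gt_atTop 0] with t ht
    have h1 : (0 : ℝ) < t := by exact_mod_cast ht
    rw [le_div_iff₀ h1, one_mul]
    unfold f
    have h2 : (0 : ℝ) ≤ z ⌈t⌉₊ := Nat.cast_nonneg _
    linarith
  · -- distributionally chaotic
    have hx : x 𝕜 ≠ 0 := by
      intro h
      have := x_large (𝕜 := 𝕜) (n := 0) (t := (K 0 : ℕ)) (by
        have := D_le_K 0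
        exact_mod_cast this) le_rfl
      rw [h, map_zero, norm_zero] at this
      norm_num at this
    have hsub : ∀ a b : ℝ, ((a : ℝ) : 𝕜) • x 𝕜 - ((b : ℝ) : 𝕜) • x 𝕜 =
        ((a - b : ℝ) : 𝕜) • x 𝕜 := by
      intro a b
      ext i
      show ((a : ℝ) : 𝕜) * x 𝕜 i - ((b : ℝ) : 𝕜) * x 𝕜 i = ((a - b : ℝ) : 𝕜) * x 𝕜 i
      rw [RCLike.ofReal_sub, sub_mul]
    have hnorm : ∀ (a : ℝ) (v : C₀(ℝ≥0, 𝕜)), ‖((a : ℝ) : 𝕜) • v‖ = |a| * ‖v‖ := by
      intro a v
      rw [norm_smul, RCLike.norm_ofReal]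
    have hinj : Function.Injective fun a : ℝ => ((a : ℝ) : 𝕜) • x 𝕜 := by
      intro a b hab
      have h1 : ‖((a - b : ℝ) : 𝕜) • x 𝕜‖ = 0 := by
        rw [← hsub, norm_eq_zero, sub_eq_zero]
        exact hab
      rw [hnorm] at h1
      rcases mul_eq_zero.1 h1 with h2 | h2
      · rw [abs_eq_zero] at h2
        linarith
      · exact absurd (norm_eq_zero.1 h2) hx
    have hdist : ∀ (a b : ℝ) (t : ℝ≥0), dist (T 𝕜 t (((a : ℝ) : 𝕜) • x 𝕜))
        (T 𝕜 t (((b : ℝ) : 𝕜) • x 𝕜)) = |a - b| * ‖T 𝕜 t (x 𝕜)‖ := by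
      intro a b j
      rw [dist_eq_norm, ← map_sub, hsub, map_smul, hnorm]
    refine ⟨Set.range fun a : ℝ => ((a : ℝ) : 𝕜) • x 𝕜, 1, ?_, one_pos, ?_⟩
    · intro hc
      have h1 : (Set.univ : Set ℝ).Countable := by
        rw [← Set.image_univ] at hc
        exact Set.countable_of_injective_of_countable_image hinj.injOn hc
      exact Cardinal.not_countable_real h1
    · rintro ε hε _ ⟨a, rfl⟩ _ ⟨b, rfl⟩ hab
      have hab' : 0 < |a - b| := by
        rw [abs_pos, sub_ne_zero]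
        rintro rfl
        exact hab rfl
      simp only [hdist]
      constructor
      · apply density_zero
        intro δ hδ N
        obtain ⟨n, hn⟩ := exists_nat_gt (max (1 / |a - b|) (max (2 / δ) (N + 1)))
        rw [max_lt_iff, max_lt_iff] at hn
        obtain ⟨h1, h2, h3⟩ := hn
        have h5 : n ≤ K n := K_strictMono.id_le n
        have h5' : (n : ℝ) ≤ K n := by exact_mod_cast h5
        have hN0 : (0 : ℝ) ≤ N := N.2
        have hK1 : (1 : ℝ) ≤ K n := by linarith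
        have hK2 : (2 : ℝ) ≤ K n := by
          have : 1 < n := by
            have : (1 : ℝ) < n := by linarith
            exact_mod_cast this
          have : 2 ≤ K n := by omega
          exact_mod_cast this
        have hKc : (((K n : ℝ≥0) - 1 : ℝ≥0) : ℝ) = (K n : ℝ) - 1 := by
          rw [NNReal.coe_sub (by exact_mod_cast hK1)]
          simp
        refine ⟨(K n : ℝ≥0) - 1, D n, ?_, ?_, ?_, ?_⟩
        · rw [← NNReal.coe_le_coe, hKc]
          linarith
        · rw [← NNReal.coe_pos, hKc]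
          linarith
        · intro j hj hjn
          rw [hKc, add_sub_cancel] at hjn
          by_contra hc
          push Not at hc
          have h4 := x_large (𝕜 := 𝕜) hc.le (by exact_mod_cast hjn)
          have h5 : |a - b| * ‖T 𝕜 j (x 𝕜)‖ < 1 := hj
          rw [div_lt_iff₀ hab'] at h1
          nlinarith
        · rw [hKc]
          have h6 : (K n : ℝ) = (n + 1) * D n := by
            rw [K_eq]; push_cast; ring
          rw [div_lt_iff₀ hδ] at h2
          have h7 : (0 : ℝ) ≤ D n := Nat.cast_nonneg _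
          have h8 : ((D n : ℝ≥0) : ℝ) = D n := rfl
          rw [h8]
          have h9 : (K n : ℝ) ≤ 2 * (K n - 1) := by linarith
          have h10 : (2 : ℝ) * D n ≤ δ * (n + 1) * D n := by
            apply mul_le_mul_of_nonneg_right _ h7
            nlinarith
          nlinarith
      · apply density_zero
        intro δ hδ N
        have hε' : 0 < ε / (|a - b| * Real.exp 2) := by positivity
        obtain ⟨n₀, hn₀⟩ := exists_pow_lt_of_lt_one hε' (show (1 / 2 : ℝ) < 1 by norm_num)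
        obtain ⟨n₁, hn₁⟩ := exists_nat_gt (max (2 / δ) (N + 1))
        rw [max_lt_iff] at hn₁
        obtain ⟨h2, h3⟩ := hn₁
        set n := max n₀ n₁ with hn
        have h4 : (1 / 2 : ℝ) ^ n < ε / (|a - b| * Real.exp 2) :=
          (pow_le_pow_of_le_one (by norm_num) (by norm_num) (le_max_left _ _)).trans_lt hn₀
        have h5 : (n₁ : ℝ) ≤ n := by exact_mod_cast le_max_right n₀ n₁
        have hz : (z (n + 1) : ℝ) = 2 * K n := by rw [z_succ]; push_cast; ring
        have hN0 : (0 : ℝ) ≤ N := N.2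
        have h6 : (n : ℝ) ≤ K n := by exact_mod_cast K_strictMono.id_le n
        have h7 : (1 : ℝ) ≤ K n := by linarith
        have hn1 : (1 : ℝ) ≤ n := by linarith
        have h8 : (2 : ℝ) * K n ≤ (n + 1) * z (n + 1) := by rw [hz]; nlinarith
        have hKc : ((((n + 1) * z (n + 1) : ℝ≥0) - 1 : ℝ≥0) : ℝ) =
            ((n : ℝ) + 1) * z (n + 1) - 1 := by
          rw [NNReal.coe_sub]
          · push_cast; ring
          · rw [← NNReal.coe_le_coe]
            push_cast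
            linarith
        refine ⟨(n + 1) * z (n + 1) - 1, (K n : ℝ≥0) + 1, ?_, ?_, ?_, ?_⟩
        · rw [← NNReal.coe_le_coe, hKc]
          linarith
        · rw [← NNReal.coe_pos, hKc]
          linarith
        · intro j hj hjn
          rw [hKc, add_sub_cancel] at hjn
          by_contra hc
          push Not at hc
          have hc' : (K n : ℝ) + 1 ≤ j := by exact_mod_cast hc.le
          have h6 := x_small (𝕜 := 𝕜) (n := n) (t := j) hc' hjn
          have h7 : ε ≤ |a - b| * ‖T 𝕜 j (x 𝕜)‖ := hj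
          rw [lt_div_iff₀ (by positivity)] at h4
          have h8 := mul_le_mul_of_nonneg_left h6 hab'.le
          nlinarith
        · rw [hKc, hz]
          have h9 : (((K n : ℝ≥0) + 1 : ℝ≥0) : ℝ) = K n + 1 := by push_cast; rfl
          rw [h9]
          rw [div_lt_iff₀ hδ] at h2
          have h10 : 2 ≤ δ * (n : ℝ) := by nlinarith
          have h11 : ((n : ℝ)) * (2 * K n) ≤ ((n : ℝ) + 1) * (2 * K n) - 1 := by nlinarith
          have h12 : δ * ((n : ℝ) * (2 * K n)) ≤ δ * (((n : ℝ) + 1) * (2 * K n) - 1) :=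
            mul_le_mul_of_nonneg_left h11 hδ.le
          nlinarith
  · -- not chaotic along `f`
    rintro ⟨S, σ, hS, hσ, h⟩
    obtain ⟨u, hu, v, hv, huv⟩ : ∃ u ∈ S, ∃ v ∈ S, u ≠ v := by
      by_contra hc
      push Not at hc
      apply hS
      exact Set.Subsingleton.countable fun u hu v hv => hc u hu v hv
    obtain ⟨h1, -⟩ := h 1 one_pos u hu v hv huv
    obtain ⟨l, hl⟩ := z_null (u - v) σ hσ
    refine density_pos _ l (fun n hn t ht1 ht2 => ?_) h1
    have h3 := hl n hn t ht1 ht2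
    rw [map_sub] at h3
    show dist _ _ < σ
    rw [dist_eq_norm]
    exact h3

end Pool.Agent.Results.MP_8cea72_an.LacunaryTimes
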